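import Pool.Agent.W905.TM.Circ
import Pool.Agent.H746R3.Inv.Approx

set_option autoImplicit false
set_option linter.all false

namespace Pool.Agent.W918.TM

open Finset H746R3.Inv Pool.Agent.W905.TM

section
variable {p : ℕ} [Fact p.Prime] {V : Type} [Fintype V] [DecidableEq V]

/-- one gate, possibly an arbitrary one of small fan-in -/
theorem gate' (d ℓ t : ℕ) (hℓ : 1 ≤ ℓ) (κ : Kind) (len : ℕ) (hlen : κ.IsWild → len ≤ t)
    (w : Fin len → (V → Bool) → ZMod p) (hw : ∀ i, w i ∈ LD (ZMod p) V d) :
    ∃ P ∈ LD (ZMod p) V (d * (ℓ * p + t)), ∃ E : Finset (V → Bool),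
      E.card * p ^ ℓ ≤ 2 ^ Fintype.card V ∧
      ∀ y, y ∉ E → ∀ τ : Fin len → Bool, (∀ i, w i y = bK (τ i)) →
        P y = bK (κ.eval p (List.ofFn τ)) := by
  classical
  by_cases hκ : κ.IsWild
  · cases κ with
    | wild φ =>
      set P : (V → Bool) → ZMod p := ∑ τ : Fin len → Bool, (bK (φ (List.ofFn τ)) : ZMod p) •
        ∏ i, (if τ i = true then w i else 1 - w i) with hP
      refine ⟨P, ?_, ∅, by simp, ?_⟩
      · rw [hP]
        refine Submodule.sum_mem _ fun τ _ => Submodule.smul_mem _ _ ?_
        have h1 := prod_mem' (K := ZMod p) (V := V) (univ : Finset (Fin len))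
          (fun i => if τ i = true then w i else 1 - w i) (fun _ => d) (by
            intro i _
            split_ifs
            · exact hw i
            · exact Submodule.sub_mem _ (H746R3.Inv.one_mem _) (hw i))
        refine LD_mono ?_ h1
        rw [Finset.sum_const, Finset.card_univ, Fintype.card_fin, smul_eq_mul, mul_comm d]
        exact Nat.mul_le_mul_right _ ((hlen trivial).trans (Nat.le_add_left _ _))
      · intro y _ σ hσ
        rw [hP, Finset.sum_apply]
        rw [Finset.sum_eq_single σ]
        · rw [Pi.smul_apply, Finset.prod_apply, smul_eq_mul]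
          have : ∏ i, (if σ i = true then w i else 1 - w i) y = 1 := by
            refine Finset.prod_eq_one fun i _ => ?_
            by_cases h : σ i = true
            · rw [if_pos h, hσ i, h]
              rfl
            · rw [if_neg h, Pi.sub_apply, hσ i]
              have h' : σ i = false := by simpa using h
              rw [h']
              simp
          rw [this, mul_one]
          rfl
        · intro τ _ hτ
          rw [Pi.smul_apply, Finset.prod_apply, smul_eq_mul]
          obtain ⟨i, hi⟩ : ∃ i, τ i ≠ σ i := by
            by_contra hcon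
            push Not at hcon
            exact hτ (funext hcon)
          have : ∏ i, (if τ i = true then w i else 1 - w i) y = 0 := by
            refine Finset.prod_eq_zero (Finset.mem_univ i) ?_
            by_cases h : τ i = true
            · rw [if_pos h, hσ i]
              have h' : σ i = false := by
                rw [h] at hi
                cases hs : σ i
                · rfl
                · exact absurd hs.symm hi
              rw [h']
              rfl
            · rw [if_neg h, Pi.sub_apply, hσ i]
              have h1 : τ i = false := by simpa using h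
              have h' : σ i = true := by
                rw [h1] at hi
                cases hs : σ i
                · exact absurd hs.symm hi
                · rfl
              rw [h']
              simp
          rw [this, mul_zero]
        · intro h
          exact absurd (Finset.mem_univ _) h
    | and => exact absurd hκ (by simp [Kind.IsWild])
    | or => exact absurd hκ (by simp [Kind.IsWild])
    | mod => exact absurd hκ (by simp [Kind.IsWild])
  · obtain ⟨P, hP, E, hE, hy⟩ := gate_approx (p := p) (K := ZMod p) (univ : Finset (V → Bool)) d ℓ hℓ κ hκ len w hw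
    refine ⟨P, LD_mono ?_ hP, E, ?_, fun y hyE τ hτ => hy y (Finset.mem_univ _) hyE τ hτ⟩
    · calc ℓ * ((p - 1) * d) = d * (ℓ * (p - 1)) := by ring
        _ ≤ d * (ℓ * p + t) := Nat.mul_le_mul_left _
          ((Nat.mul_le_mul_left _ (Nat.sub_le _ _)).trans (Nat.le_add_right _ _))
    · rwa [Finset.card_univ, Fintype.card_fun, Fintype.card_bool] at hE

/-- the function carried by a wire -/
def wf {I : Type} {G : ℕ} (inp : I → (V → Bool) → Bool) (P : Fin G → (V → Bool) → ZMod p)
    (w : Bool × (I ⊕ Fin G)) : (V → Bool) → ZMod p :=
  if w.1 = true then 1 - Sum.elim (fun i y => (bK (inp i y) : ZMod p)) P w.2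
  else Sum.elim (fun i y => (bK (inp i y) : ZMod p)) P w.2

theorem wf_mem {I : Type} {G : ℕ} (inp : I → (V → Bool) → Bool) (P : Fin G → (V → Bool) → ZMod p)
    (D d : ℕ) (hd : D ≤ d) (hinp : ∀ i, (fun y => (bK (inp i y) : ZMod p)) ∈ LD (ZMod p) V D)
    (w : Bool × (I ⊕ Fin G)) (hP : ∀ g, w.2 = Sum.inr g → P g ∈ LD (ZMod p) V d) :
    wf inp P w ∈ LD (ZMod p) V d := by
  have key : Sum.elim (fun i y => (bK (inp i y) : ZMod p)) P w.2 ∈ LD (ZMod p) V d := by
    rcases hs : w.2 with i | g
    · exact LD_mono hd (hinp i)
    · exact hP g hs
  unfold wf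
  split_ifs
  · exact Submodule.sub_mem _ (H746R3.Inv.one_mem _) key
  · exact key

theorem wf_val {I : Type} (C : Circuit I Unit) (inp : I → (V → Bool) → Bool)
    (P : Fin C.G → (V → Bool) → ZMod p) (y : V → Bool) (v : Fin C.G → Bool)
    (w : Bool × (I ⊕ Fin C.G)) (hP : ∀ g, w.2 = Sum.inr g → P g y = bK (v g)) :
    wf inp P w y = bK (C.wire (fun i => inp i y) v w) := by
  have key : Sum.elim (fun i y => (bK (inp i y) : ZMod p)) P w.2 y =
      bK (Sum.elim (fun i => inp i y) v w.2) := by
    rcases hs : w.2 with i | g
    · rfl
    · exact hP g hs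
  unfold wf Circuit.wire
  by_cases h : w.1 = true
  · rw [if_pos h, Pi.sub_apply, key, h]
    cases Sum.elim (fun i => inp i y) v w.2 <;> simp
  · have h' : w.1 = false := by simpa using h
    rw [if_neg h, key, h']
    cases Sum.elim (fun i => inp i y) v w.2 <;> simp

end

theorem rs_holds : S_RS := by
  classical
  intro p _ V I _ _ C h t ℓ D hℓ hD hdepth hwild inp hinp
  have hp : 1 < p := (Fact.out : p.Prime).one_lt
  have hM : 1 ≤ ℓ * p + t := by
    have : 0 < ℓ * p := Nat.mul_pos hℓ (by omega)
    omega
  choose v hv hvu using fun y : V → Bool => C.existsUnique_run p (fun i => inp i y)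
  have main : ∀ L : ℕ, ∃ (P : Fin C.G → (V → Bool) → ZMod p) (E : Fin C.G → Finset (V → Bool)),
      (∀ g, C.level g < L → P g ∈ LD (ZMod p) V (D * (ℓ * p + t) ^ (C.level g + 1))) ∧
      (∀ g, (E g).card * p ^ ℓ ≤ 2 ^ Fintype.card V) ∧
      ∀ y, (∀ g, C.level g < L → y ∉ E g) → ∀ g, C.level g < L → P g y = bK (v y g) := by
    intro L
    induction L with
    | zero =>
      refine ⟨fun _ => 0, fun _ => ∅, ?_, ?_, ?_⟩
      · intro g hg
        exact absurd hg (Nat.not_lt_zero _)
      · intro g
        simp
      · intro y _ g hg
        exact absurd hg (Nat.not_lt_zero _)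
    | succ L ih =>
      obtain ⟨P, E, hPm, hE, hPv⟩ := ih
      have hstep : ∀ g, C.level g = L → ∃ Pg ∈ LD (ZMod p) V (D * (ℓ * p + t) ^ (L + 1)),
          ∃ Eg : Finset (V → Bool), Eg.card * p ^ ℓ ≤ 2 ^ Fintype.card V ∧
            ∀ y, y ∉ Eg → (∀ g, C.level g < L → P g y = bK (v y g)) → Pg y = bK (v y g) := by
        intro g hg
        obtain ⟨Pg, hPg, Eg, hEg, hval⟩ := gate' (p := p) (V := V) (D * (ℓ * p + t) ^ L) ℓ t hℓ (C.kind g)
          (C.wires g).length (hwild g) (fun i => wf inp P ((C.wires g).get i)) (by
            intro i
            refine wf_mem inp P D _ (Nat.le_mul_of_pos_right _ (Nat.pow_pos hM)) hinp _ ?_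
            intro g' hg'
            have h2 : C.level g' < C.level g := by
              refine C.level_lt g ((C.wires g).get i).1 g' ?_
              rw [← hg']
              exact List.get_mem _ _
            rw [hg] at h2
            exact LD_mono (Nat.mul_le_mul_left _ (Nat.pow_le_pow_right hM h2)) (hPm g' h2))
        refine ⟨Pg, ?_, Eg, hEg, ?_⟩
        · rw [pow_succ, ← mul_assoc]
          exact hPg
        · intro y hy hlow
          have h3 := hval y hy (fun i => C.wire (fun i => inp i y) (v y) ((C.wires g).get i)) (by
            intro i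
            refine wf_val C inp P y (v y) _ ?_
            intro g' hg'
            have h2 : C.level g' < C.level g := by
              refine C.level_lt g ((C.wires g).get i).1 g' ?_
              rw [← hg']
              exact List.get_mem _ _
            rw [hg] at h2
            exact hlow g' h2)
          rw [h3]
          have hmap : List.ofFn (fun i => C.wire (fun i => inp i y) (v y) ((C.wires g).get i)) =
              (C.wires g).map (C.wire (fun i => inp i y) (v y)) := by
            conv_rhs => rw [← List.ofFn_get (C.wires g), List.map_ofFn]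
            rfl
          rw [hmap, ← hv y g]
      choose Pg hPgm Eg hEg hPgv using hstep
      refine ⟨fun g => if hg : C.level g = L then Pg g hg else P g,
        fun g => if hg : C.level g = L then Eg g hg else E g, ?_, ?_, ?_⟩
      · intro g hg
        by_cases h1 : C.level g = L
        · simp only [dif_pos h1]
          rw [h1]
          exact hPgm g h1
        · simp only [dif_neg h1]
          exact hPm g (by omega)
      · intro g
        by_cases h1 : C.level g = L
        · simp only [dif_pos h1]
          exact hEg g h1
        · simp only [dif_neg h1]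
          exact hE g
      · intro y hy g hg
        have hlow : ∀ g, C.level g < L → P g y = bK (v y g) := by
          refine hPv y ?_
          intro g' hg'
          have h2 := hy g' (by omega)
          beta_reduce at h2
          rwa [dif_neg (by omega)] at h2
        by_cases h1 : C.level g = L
        · simp only [dif_pos h1]
          have h2 := hy g hg
          beta_reduce at h2
          rw [dif_pos h1] at h2
          exact hPgv g h1 y h2 hlow
        · simp only [dif_neg h1]
          exact hlow g (by omega)
  obtain ⟨P, E, hPm, hE, hPv⟩ := main h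
  refine ⟨wf inp P (C.out ()), ?_, ?_⟩
  · refine wf_mem inp P D _ (Nat.le_mul_of_pos_right _ (Nat.pow_pos hM)) hinp _ ?_
    intro g _
    exact LD_mono (Nat.mul_le_mul_left _ (Nat.pow_le_pow_right hM (hdepth g))) (hPm g (hdepth g))
  · have hsub : (univ.filter fun y : V → Bool =>
        ¬ (wf inp P (C.out ()) y = bK (decide (Acc p C fun i => inp i y)))) ⊆ univ.biUnion E := by
      intro y hy
      rw [Finset.mem_filter] at hy
      rw [Finset.mem_biUnion]
      by_contra hcon
      apply hy.2
      have hall : ∀ g, y ∉ E g := fun g hg => hcon ⟨g, Finset.mem_univ _, hg⟩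
      rw [wf_val C inp P y (v y) (C.out ()) (fun g _ => hPv y (fun g _ => hall g) g (hdepth g))]
      congr 1
      rw [Bool.eq_iff_iff, decide_eq_true_iff]
      constructor
      · intro hw
        exact ⟨v y, hv y, fun _ => hw.symm⟩
      · rintro ⟨u, hu, huo⟩
        have : u = v y := hvu y u hu
        rw [this] at huo
        exact (huo ()).symm
    calc _ ≤ (univ.biUnion E).card * p ^ ℓ := Nat.mul_le_mul_right _ (Finset.card_le_card hsub)
      _ ≤ (∑ g, (E g).card) * p ^ ℓ := Nat.mul_le_mul_right _ Finset.card_biUnion_le
      _ = ∑ g, (E g).card * p ^ ℓ := by rw [Finset.sum_mul]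
      _ ≤ ∑ _g : Fin C.G, 2 ^ Fintype.card V := Finset.sum_le_sum fun g _ => hE g
      _ = C.G * 2 ^ Fintype.card V := by
        rw [Finset.sum_const, Finset.card_univ, Fintype.card_fin, smul_eq_mul]

end Pool.Agent.W918.TM
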